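import Mathlib

namespace Q20.OddComm

variable {p : ℕ} [hp : Fact p.Prime]

lemma odd_neg (hodd : Odd p) {D D' : ZMod p} (h : D + D' = 0) (hD : D ≠ 0) :
    (Odd D.val ↔ ¬ Odd D'.val) := by
  have h1 : D' = -D := by linear_combination h
  have : NeZero p := ⟨hp.out.ne_zero⟩
  have h2 : D'.val = p - D.val := by
    rw [h1]
    have := ZMod.neg_val D
    rw [if_neg hD] at this
    exact this
  have h3 : D.val < p := ZMod.val_lt D
  rw [h2]
  obtain ⟨k, hk⟩ := hodd
  constructor
  · rintro ⟨a, ha⟩ ⟨b, hb⟩
    omega
  · intro h4
    rw [Nat.not_odd_iff_even] at h4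
    obtain ⟨a, ha⟩ := h4
    exact ⟨k - a, by omega⟩

lemma odd_one (hodd : Odd p) {D D' : ZMod p} (h : D + D' = 1) (hD' : D' ≠ 0)
    (hno : ¬ Odd D'.val) : ¬ Odd D.val := by
  have : NeZero p := ⟨hp.out.ne_zero⟩
  have h3 : D'.val < p := ZMod.val_lt D'
  have h0 : D'.val ≠ 0 := by
    intro h0
    exact hD' ((ZMod.val_eq_zero D').1 h0)
  rw [Nat.not_odd_iff_even] at hno
  obtain ⟨a, ha⟩ := hno
  have h1 : D = ((p + 1 - D'.val : ℕ) : ZMod p) := by
    rw [Nat.cast_sub (by omega)]
    push_cast
    rw [ZMod.natCast_self, ZMod.natCast_zmod_val]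
    linear_combination h
  have h2 : D.val = p + 1 - D'.val := by
    rw [h1]
    exact ZMod.val_natCast_of_lt (by omega)
  rw [h2]
  obtain ⟨k, hk⟩ := hodd
  rintro ⟨b, hb⟩
  omega

open Classical in
/-- the colour of the matrix with entries `x y z w` -/
noncomputable def colE (x y z w : ZMod p) : ZMod p :=
  if z ≠ 0 then
    (if Odd ((((x - w) ^ 2 + 4 * y * z) / (2 * z) ^ 2 : ZMod p)).val then (x - w) / (2 * z)
      else (x - w) / (2 * z) + 1) + (x + w) / (2 * z)
  else if x - w ≠ 0 then -y / (x - w) + 2 + (x + w) / (x - w)
  else (x + w) / (2 * y)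

lemma two_ne (hodd : Odd p) : (2 : ZMod p) ≠ 0 := by
  intro h
  have h1 : ((2 : ℕ) : ZMod p) = 0 := by exact_mod_cast h
  rw [ZMod.natCast_eq_zero_iff] at h1
  have h2 := Nat.le_of_dvd (by norm_num) h1
  have h3 := hp.out.two_le
  have h4 : p = 2 := by omega
  rw [h4] at hodd
  exact absurd hodd (by decide)

/-- commuting matrices get different colours -/
lemma col_comm (hodd : Odd p) {x y z w x' y' z' w' : ZMod p}
    (hns : ¬ (y = 0 ∧ z = 0 ∧ x = w)) (hns' : ¬ (y' = 0 ∧ z' = 0 ∧ x' = w'))
    (h00 : y * z' = y' * z) (h01 : (x - w) * y' = (x' - w') * y)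
    (h10 : (x' - w') * z = (x - w) * z')
    (hprop : ∀ u : ZMod p, u ≠ 0 → ¬ (x * u = x' ∧ y * u = y' ∧ z * u = z' ∧ w * u = w')) :
    colE x y z w ≠ colE x' y' z' w' := by
  have h2 := two_ne (p := p) hodd
  intro hcol
  unfold colE at hcol
  by_cases hz : z = 0
  · have hz' : z' = 0 := by
      by_contra hz'
      subst hz
      rw [mul_zero] at h00 h10
      have e1 : y = 0 := by
        rcases mul_eq_zero.1 h00 with h | h
        · exact h
        · exact absurd h hz'
      have e2 : x - w = 0 := by
        rcases mul_eq_zero.1 h10.symm with h | h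
        · exact h
        · exact absurd h hz'
      exact hns ⟨e1, rfl, by linear_combination e2⟩
    subst hz; subst hz'
    simp only [ne_eq, not_true_eq_false, if_false] at hcol
    by_cases ha : x - w = 0
    · have hy : y ≠ 0 := by
        rintro rfl
        exact hns ⟨rfl, rfl, by linear_combination ha⟩
      have ha' : x' - w' = 0 := by
        rw [ha, zero_mul] at h01
        rcases mul_eq_zero.1 h01.symm with h | h
        · exact h
        · exact absurd h hy
      have hy' : y' ≠ 0 := by
        rintro rfl
        exact hns' ⟨rfl, rfl, by linear_combination ha'⟩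
      simp only [ha, ha', not_true_eq_false, if_false] at hcol
      refine hprop (y' / y) (div_ne_zero hy' hy) ⟨?_, ?_, ?_, ?_⟩
      · have e1 : w = x := by linear_combination -ha
        have e2 : w' = x' := by linear_combination -ha'
        subst e1; subst e2
        field_simp at hcol ⊢
        linear_combination hcol
      · field_simp
      · simp
      · have e1 : w = x := by linear_combination -ha
        have e2 : w' = x' := by linear_combination -ha'
        subst e1; subst e2
        field_simp at hcol ⊢
        linear_combination hcol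
    · have ha' : x' - w' ≠ 0 := by
        intro ha'
        rw [ha', zero_mul] at h01
        have e1 : y' = 0 := by
          rcases mul_eq_zero.1 h01 with h | h
          · exact absurd h ha
          · exact h
        exact hns' ⟨e1, rfl, by linear_combination ha'⟩
      simp only [ha, ha', not_false_eq_true, if_true] at hcol
      -- equality of the slopes
      have e1 : -y / (x - w) = -y' / (x' - w') := by
        rw [div_eq_div_iff ha ha']
        linear_combination h01
      rw [e1] at hcol
      have e2 : (x + w) / (x - w) = (x' + w') / (x' - w') := by linear_combination hcol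
      rw [div_eq_div_iff ha ha'] at e2
      refine hprop ((x' - w') / (x - w)) (div_ne_zero ha' ha) ⟨?_, ?_, ?_, ?_⟩
      · rw [mul_div_assoc', div_eq_iff ha]
        have : (2 : ZMod p) * (x * (x' - w') - x' * (x - w)) = 0 := by linear_combination e2
        rcases mul_eq_zero.1 this with h | h
        · exact absurd h h2
        · linear_combination h
      · rw [mul_div_assoc', div_eq_iff ha]
        linear_combination -h01
      · simp
      · rw [mul_div_assoc', div_eq_iff ha]
        have : (2 : ZMod p) * (w * (x' - w') - w' * (x - w)) = 0 := by linear_combination e2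
        rcases mul_eq_zero.1 this with h | h
        · exact absurd h h2
        · linear_combination h
  · have hz' : z' ≠ 0 := by
      intro hz'
      subst hz'
      rw [mul_zero] at h00 h10
      have e1 : y' = 0 := by
        rcases mul_eq_zero.1 h00.symm with h | h
        · exact h
        · exact absurd h hz
      have e2 : x' - w' = 0 := by
        rcases mul_eq_zero.1 h10 with h | h
        · exact h
        · exact absurd h hz
      exact hns' ⟨e1, rfl, by linear_combination e2⟩
    have h2z : (2 : ZMod p) * z ≠ 0 := mul_ne_zero h2 hz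
    have h2z' : (2 : ZMod p) * z' ≠ 0 := mul_ne_zero h2 hz'
    simp only [ne_eq, hz, hz', not_false_eq_true, if_true] at hcol
    have e1 : (x - w) / (2 * z) = (x' - w') / (2 * z') := by
      rw [div_eq_div_iff h2z h2z']
      linear_combination -2 * h10
    have e2 : ((x - w) ^ 2 + 4 * y * z) / (2 * z) ^ 2 =
        ((x' - w') ^ 2 + 4 * y' * z') / (2 * z') ^ 2 := by
      rw [div_eq_div_iff (pow_ne_zero 2 h2z) (pow_ne_zero 2 h2z')]
      linear_combination (-4 * ((x - w) * z' + (x' - w') * z)) * h10 + (16 * z * z') * h00
    rw [e1, e2] at hcol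
    have e3 : (x + w) / (2 * z) = (x' + w') / (2 * z') := by
      exact add_left_cancel hcol
    rw [div_eq_div_iff h2z h2z'] at e3
    refine hprop (z' / z) (div_ne_zero hz' hz) ⟨?_, ?_, ?_, ?_⟩
    · rw [mul_div_assoc', div_eq_iff hz]
      have : (2 : ZMod p) * (2 * (x * z' - x' * z)) = 0 := by
        linear_combination e3 - 2 * h10
      rcases mul_eq_zero.1 this with h | h
      · exact absurd h h2
      · rcases mul_eq_zero.1 h with h | h
        · exact absurd h h2
        · linear_combination h
    · rw [mul_div_assoc', div_eq_iff hz]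
      linear_combination h00
    · field_simp
    · rw [mul_div_assoc', div_eq_iff hz]
      have : (2 : ZMod p) * (2 * (w * z' - w' * z)) = 0 := by
        linear_combination e3 + 2 * h10
      rcases mul_eq_zero.1 this with h | h
      · exact absurd h h2
      · rcases mul_eq_zero.1 h with h | h
        · exact absurd h h2
        · linear_combination h

/-- anticommuting (hence traceless) matrices, both with nonzero lower left entry -/
lemma col_anti_nn (hodd : Odd p) {x y z x' y' z' : ZMod p}
    (hdet : x ^ 2 + y * z ≠ 0) (hdet' : x' ^ 2 + y' * z' ≠ 0)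
    (horth : 2 * x * x' + y * z' + y' * z = 0) (hz : z ≠ 0) (hz' : z' ≠ 0) :
    colE x y z (-x) ≠ colE x' y' z' (-x') := by
  have h2 := two_ne (p := p) hodd
  intro hcol
  unfold colE at hcol
  simp only [ne_eq, hz, hz', not_false_eq_true, if_true] at hcol
  have a1 : (x - -x) / (2 * z) = x / z := by field_simp; ring
  have a1' : (x' - -x') / (2 * z') = x' / z' := by field_simp; ring
  have a2 : (x + -x) / (2 * z) = 0 := by rw [add_neg_cancel, zero_div]
  have a2' : (x' + -x') / (2 * z') = 0 := by rw [add_neg_cancel, zero_div]
  rw [a1, a1', a2, a2', add_zero, add_zero] at hcol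
  set D : ZMod p := ((x - -x) ^ 2 + 4 * y * z) / (2 * z) ^ 2 with hD
  set D' : ZMod p := ((x' - -x') ^ 2 + 4 * y' * z') / (2 * z') ^ 2 with hD'
  have b1 : D = (x ^ 2 + y * z) / z ^ 2 := by rw [hD]; field_simp; ring
  have b1' : D' = (x' ^ 2 + y' * z') / z' ^ 2 := by rw [hD']; field_simp; ring
  have hD0 : D ≠ 0 := by rw [b1]; exact div_ne_zero hdet (pow_ne_zero 2 hz)
  have hD0' : D' ≠ 0 := by rw [b1']; exact div_ne_zero hdet' (pow_ne_zero 2 hz')
  have key : D + D' = (x / z - x' / z') ^ 2 := by
    rw [b1, b1']
    field_simp
    linear_combination (z * z') * horth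
  by_cases o1 : Odd D.val <;> by_cases o2 : Odd D'.val
  · simp only [o1, o2, if_true] at hcol
    rw [hcol, sub_self, zero_pow (by norm_num)] at key
    exact (odd_neg hodd key hD0).1 o1 o2
  · simp only [o1, o2, if_true, if_false] at hcol
    have : D + D' = 1 := by
      rw [key, hcol]; ring
    exact odd_one hodd this hD0' o2 o1
  · simp only [o1, o2, if_true, if_false] at hcol
    have : D' + D = 1 := by
      rw [add_comm, key, ← hcol]; ring
    exact odd_one hodd this hD0 o1 o2
  · simp only [o1, o2, if_false] at hcol
    have hcol' : x / z = x' / z' := add_right_cancel hcol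
    rw [hcol', sub_self, zero_pow (by norm_num)] at key
    exact o1 ((odd_neg hodd key hD0).2 o2)

/-- anticommuting matrices, exactly one of them upper triangular -/
lemma col_anti_nz (hodd : Odd p) {x y z x' y' : ZMod p}
    (hdet' : x' ^ 2 + y' * 0 ≠ 0)
    (horth : 2 * x * x' + y * 0 + y' * z = 0) (hz : z ≠ 0) :
    colE x y z (-x) ≠ colE x' y' 0 (-x') := by
  have h2 := two_ne (p := p) hodd
  have hx' : x' ≠ 0 := by
    rintro rfl
    exact hdet' (by ring)
  intro hcol
  unfold colE at hcol
  have hne : x' - -x' ≠ 0 := by
    intro h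
    have : 2 * x' = 0 := by linear_combination h
    exact (mul_ne_zero h2 hx') this
  simp only [ne_eq, hz, not_false_eq_true, if_true, not_true_eq_false, if_false, hne] at hcol
  have a1 : (x - -x) / (2 * z) = x / z := by field_simp; ring
  have a2 : (x + -x) / (2 * z) = 0 := by rw [add_neg_cancel, zero_div]
  have a3 : (x' + -x') / (x' - -x') = 0 := by rw [add_neg_cancel, zero_div]
  have a4 : -y' / (x' - -x') = x / z := by
    rw [div_eq_div_iff hne hz]
    linear_combination -horth
  rw [a1, a2, a3, a4, add_zero, add_zero] at hcol
  split_ifs at hcol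
  · have : (2 : ZMod p) = 0 := by linear_combination -hcol
    exact h2 this
  · have : (1 : ZMod p) = 0 := by linear_combination -hcol
    exact one_ne_zero this

/-- the core of the colouring -/
lemma col_ne (hodd : Odd p) {x y z w x' y' z' w' l : ZMod p}
    (hdet : x * w - y * z ≠ 0) (hdet' : x' * w' - y' * z' ≠ 0)
    (hns : ¬ (y = 0 ∧ z = 0 ∧ x = w)) (hns' : ¬ (y' = 0 ∧ z' = 0 ∧ x' = w'))
    (h00 : x * x' + y * z' = l * (x' * x + y' * z))
    (h01 : x * y' + y * w' = l * (x' * y + y' * w))
    (h10 : z * x' + w * z' = l * (z' * x + w' * z))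
    (h11 : z * y' + w * w' = l * (z' * y + w' * w))
    (hprop : ∀ u : ZMod p, u ≠ 0 → ¬ (x * u = x' ∧ y * u = y' ∧ z * u = z' ∧ w * u = w')) :
    colE x y z w ≠ colE x' y' z' w' := by
  have h2 := two_ne (p := p) hodd
  have hl : l ^ 2 = 1 := by
    have h1 : (x * w - y * z) * (x' * w' - y' * z') * (l ^ 2 - 1) = 0 := by
      linear_combination -(z * y' + w * w') * h00 - l * (x' * x + y' * z) * h11 +
        (z * x' + w * z') * h01 + l * (x' * y + y' * w) * h10
    rcases mul_eq_zero.1 h1 with h | h
    · rcases mul_eq_zero.1 h with h | h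
      · exact absurd h hdet
      · exact absurd h hdet'
    · linear_combination h
  have hl' : l = 1 ∨ l = -1 := by
    have h3 : (l - 1) * (l + 1) = 0 := by linear_combination hl
    rcases mul_eq_zero.1 h3 with h | h
    · left; linear_combination h
    · right; linear_combination h
  rcases hl' with h | h
  · subst h
    apply col_comm hodd hns hns' _ _ _ hprop
    · linear_combination h00
    · linear_combination h01
    · linear_combination h10
  · subst h
    -- traces vanish
    have ht : x + w = 0 := by
      have h3 : 2 * (x + w) * (x' * w' - y' * z') = 0 := by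
        linear_combination w' * h00 - z' * h01 - y' * h10 + x' * h11
      rcases mul_eq_zero.1 h3 with h | h
      · rcases mul_eq_zero.1 h with h | h
        · exact absurd h h2
        · exact h
      · exact absurd h hdet'
    have ht' : x' + w' = 0 := by
      have h3 : 2 * (x' + w') * (x * w - y * z) = 0 := by
        linear_combination w * h00 - z * h01 - y * h10 + x * h11
      rcases mul_eq_zero.1 h3 with h | h
      · rcases mul_eq_zero.1 h with h | h
        · exact absurd h h2
        · exact h
      · exact absurd h hdet
    have hw : w = -x := by linear_combination ht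
    have hw' : w' = -x' := by linear_combination ht'
    subst hw; subst hw'
    have horth : 2 * x * x' + y * z' + y' * z = 0 := by linear_combination h00
    have hd : x ^ 2 + y * z ≠ 0 := by
      intro h; exact hdet (by linear_combination -h)
    have hd' : x' ^ 2 + y' * z' ≠ 0 := by
      intro h; exact hdet' (by linear_combination -h)
    by_cases hz : z = 0
    · by_cases hz' : z' = 0
      · exfalso
        subst hz; subst hz'
        have hx : x ≠ 0 := by
          rintro rfl; exact hd (by ring)
        have hx' : x' ≠ 0 := by
          rintro rfl; exact hd' (by ring)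
        have : 2 * x * x' = 0 := by linear_combination horth
        exact (mul_ne_zero (mul_ne_zero h2 hx) hx') this
      · subst hz
        exact (col_anti_nz hodd hd (by linear_combination horth) hz').symm
    · by_cases hz' : z' = 0
      · subst hz'
        exact col_anti_nz hodd hd' horth hz
      · exact col_anti_nn hodd hd hd' horth hz hz'

end Q20.OddComm
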