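import Mathlib

/-!
# The commuting graph of a group on its non-central elements
-/

namespace Q20.OddComm

/-- The commuting graph of a group: the vertices are the non-central elements, and distinct
vertices are adjacent exactly when they commute. -/
def commutingGraph (G : Type*) [Group G] : SimpleGraph {x : G // x ∉ Subgroup.center G} where
  Adj x y := x ≠ y ∧ x.1 * y.1 = y.1 * x.1
  symm := ⟨fun _ _ h => ⟨h.1.symm, h.2.symm⟩⟩
  loopless := ⟨fun _ h => h.1 rfl⟩

end Q20.OddComm
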