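import Pool.Agent.Q20.OddComm.Defs
import Pool.Agent.Q20.OddComm.Core

namespace Q20.OddComm

open Matrix

variable {p : ℕ} [hp : Fact p.Prime]

/-- the projective general linear group of degree two over the prime field -/
abbrev PG (p : ℕ) := Matrix.ProjGenLinGroup (Fin 2) (ZMod p)

lemma det_ne (X : GL (Fin 2) (ZMod p)) :
    X.val 0 0 * X.val 1 1 - X.val 0 1 * X.val 1 0 ≠ 0 := by
  rw [← Matrix.det_fin_two]
  have : IsUnit (X.val.det) := (Matrix.isUnit_iff_isUnit_det _).1 X.isUnit
  exact this.ne_zero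

lemma mk_eq_of_entries (X Y : GL (Fin 2) (ZMod p)) (u : ZMod p) (hu : u ≠ 0)
    (h00 : X.val 0 0 * u = Y.val 0 0) (h01 : X.val 0 1 * u = Y.val 0 1)
    (h10 : X.val 1 0 * u = Y.val 1 0) (h11 : X.val 1 1 * u = Y.val 1 1) :
    (ProjGenLinGroup.mk X : PG p) = ProjGenLinGroup.mk Y := by
  rw [ProjGenLinGroup.mk_eq_mk_iff]
  refine ⟨Units.mk0 u hu, ?_⟩
  apply Units.ext
  ext i j
  rw [Units.val_mul]
  fin_cases i <;> fin_cases j <;> simp [Matrix.mul_apply, Fin.sum_univ_two, h00, h01, h10, h11]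

lemma mk_eq_one_of (X : GL (Fin 2) (ZMod p))
    (h : X.val 0 1 = 0 ∧ X.val 1 0 = 0 ∧ X.val 0 0 = X.val 1 1) :
    (ProjGenLinGroup.mk X : PG p) = 1 := by
  have hd := det_ne X
  have h00 : X.val 0 0 ≠ 0 := by
    intro h0
    apply hd
    rw [h0, h.1]; ring
  rw [← ProjGenLinGroup.mk_one]
  apply mk_eq_of_entries X 1 (X.val 0 0)⁻¹ (inv_ne_zero h00)
  · rw [mul_inv_cancel₀ h00]; simp
  · rw [h.1]; simp
  · rw [h.2.1]; simp
  · rw [← h.2.2, mul_inv_cancel₀ h00]; simp

/-- commuting in the projective group, in terms of matrix entries -/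
lemma comm_entries (X Y : GL (Fin 2) (ZMod p))
    (h : (ProjGenLinGroup.mk X : PG p) * ProjGenLinGroup.mk Y =
      ProjGenLinGroup.mk Y * ProjGenLinGroup.mk X) :
    ∃ l : ZMod p, ∀ i j, (X.val * Y.val) i j = l * (Y.val * X.val) i j := by
  rw [← map_mul, ← map_mul, eq_comm, ProjGenLinGroup.mk_eq_mk_iff] at h
  obtain ⟨u, hu⟩ := h
  refine ⟨u, fun i j => ?_⟩
  have h1 := congrArg Units.val hu
  rw [Units.val_mul, Units.val_mul, Units.val_mul] at h1
  rw [← h1]
  have : ((GeneralLinearGroup.scalar (Fin 2) u : GL (Fin 2) (ZMod p)) :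
      Matrix (Fin 2) (Fin 2) (ZMod p)) = Matrix.scalar (Fin 2) (u : ZMod p) := rfl
  rw [this]
  simp [mul_comm]

/-- the colour of an element of the projective group -/
noncomputable def colG (x : PG p) : ZMod p :=
  let X : GL (Fin 2) (ZMod p) := (ProjGenLinGroup.mk_surjective x).choose
  colE (X.val 0 0) (X.val 0 1) (X.val 1 0) (X.val 1 1)

lemma colG_ne (hodd : Odd p) {x y : PG p} (hx : x ≠ 1) (hy : y ≠ 1) (hxy : x ≠ y)
    (hc : x * y = y * x) : colG x ≠ colG y := by
  unfold colG
  simp only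
  have eX := (ProjGenLinGroup.mk_surjective x).choose_spec
  have eY := (ProjGenLinGroup.mk_surjective y).choose_spec
  generalize (ProjGenLinGroup.mk_surjective x).choose = X at eX ⊢
  generalize (ProjGenLinGroup.mk_surjective y).choose = Y at eY ⊢
  subst eX; subst eY
  obtain ⟨l, hl⟩ := comm_entries X Y hc
  apply col_ne hodd (l := l) (det_ne X) (det_ne Y)
  · rintro ⟨h1, h2, h3⟩
    exact hx (mk_eq_one_of X ⟨h1, h2, h3⟩)
  · rintro ⟨h1, h2, h3⟩
    exact hy (mk_eq_one_of Y ⟨h1, h2, h3⟩)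
  · have := hl 0 0
    simpa [Matrix.mul_apply, Fin.sum_univ_two] using this
  · have := hl 0 1
    simpa [Matrix.mul_apply, Fin.sum_univ_two] using this
  · have := hl 1 0
    simpa [Matrix.mul_apply, Fin.sum_univ_two] using this
  · have := hl 1 1
    simpa [Matrix.mul_apply, Fin.sum_univ_two] using this
  · rintro u hu ⟨h1, h2, h3, h4⟩
    exact hxy (mk_eq_of_entries X Y u hu h1 h2 h3 h4)

/-- the group -/
abbrev GG (c p : ℕ) := Multiplicative (ZMod c) × PG p

lemma central_of_one {c : ℕ} (z : Multiplicative (ZMod c)) :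
    ((z, 1) : GG c p) ∈ Subgroup.center (GG c p) := by
  rw [Subgroup.mem_center_iff]
  rintro ⟨a, b⟩
  apply Prod.ext
  · exact mul_comm a z
  · simp

/-- the colouring -/
noncomputable def coloring (c : ℕ) (hodd : Odd p) :
    (commutingGraph (GG c p)).Coloring (ZMod c × ZMod p) :=
  SimpleGraph.Coloring.mk (fun x => (Multiplicative.toAdd x.1.1, colG x.1.2)) (by
    rintro ⟨⟨a, x⟩, hx⟩ ⟨⟨b, y⟩, hy⟩ ⟨hne, hc⟩ heq
    simp only [Prod.mk.injEq] at heq
    have hab : a = b := Multiplicative.toAdd.injective heq.1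
    subst hab
    have hx1 : x ≠ 1 := by
      rintro rfl
      exact hx (central_of_one a)
    have hy1 : y ≠ 1 := by
      rintro rfl
      exact hy (central_of_one a)
    have hxy : x ≠ y := by
      rintro rfl
      exact hne rfl
    have hc2 : x * y = y * x := congrArg Prod.snd hc
    exact colG_ne hodd hx1 hy1 hxy hc2 heq.2)

/-! ### The clique -/

/-- a non-square -/
lemma exists_nonsquare (hodd : Odd p) : ∃ e : ZMod p, ∀ t : ZMod p, t * t - e ≠ 0 := by
  have hchar : ringChar (ZMod p) ≠ 2 := by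
    rw [ZMod.ringChar_zmod_n]
    rintro rfl
    exact absurd hodd (by decide)
  obtain ⟨e, he⟩ := FiniteField.exists_nonsquare hchar
  refine ⟨e, fun t ht => he ⟨t, ?_⟩⟩
  linear_combination -ht

/-- the elements of the nonsplit torus -/
noncomputable def tor (e : ZMod p) (he : ∀ t : ZMod p, t * t - e ≠ 0) (t : ZMod p) :
    GL (Fin 2) (ZMod p) :=
  Matrix.GeneralLinearGroup.mkOfDetNeZero !![t, e; 1, t] (by
    rw [Matrix.det_fin_two_of, mul_one]; exact he t)

lemma tor_val (e : ZMod p) (he : ∀ t : ZMod p, t * t - e ≠ 0) (t : ZMod p) :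
    (tor e he t).val = !![t, e; 1, t] := rfl

lemma tor_inj (e : ZMod p) (he : ∀ t : ZMod p, t * t - e ≠ 0) {t s : ZMod p}
    (h : (ProjGenLinGroup.mk (tor e he t) : PG p) = ProjGenLinGroup.mk (tor e he s)) :
    t = s := by
  rw [ProjGenLinGroup.mk_eq_mk_iff] at h
  obtain ⟨u, hu⟩ := h
  have h1 := congrArg Units.val hu
  rw [Units.val_mul, tor_val, tor_val] at h1
  have h10 := congrFun (congrFun h1 1) 0
  have h00 := congrFun (congrFun h1 0) 0
  simp [Matrix.mul_apply, Fin.sum_univ_two] at h10 h00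
  rw [h10] at h00
  simpa using h00

lemma tor_comm (e : ZMod p) (he : ∀ t : ZMod p, t * t - e ≠ 0) (t s : ZMod p) :
    tor e he t * tor e he s = tor e he s * tor e he t := by
  apply Units.ext
  rw [Units.val_mul, Units.val_mul, tor_val, tor_val]
  ext i j
  fin_cases i <;> fin_cases j <;> simp [Matrix.mul_apply, Fin.sum_univ_two] <;> ring

/-- the unipotent matrix -/
noncomputable def uni (p : ℕ) [Fact p.Prime] : GL (Fin 2) (ZMod p) :=
  Matrix.GeneralLinearGroup.mkOfDetNeZero !![1, 1; 0, 1] (by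
    rw [Matrix.det_fin_two_of]; simp)

lemma tor_noncentral (c : ℕ) (e : ZMod p) (he : ∀ t : ZMod p, t * t - e ≠ 0) (t : ZMod p)
    (a : Multiplicative (ZMod c)) :
    ((a, ProjGenLinGroup.mk (tor e he t)) : GG c p) ∉ Subgroup.center (GG c p) := by
  intro h
  rw [Subgroup.mem_center_iff] at h
  have h1 := congrArg Prod.snd (h (1, ProjGenLinGroup.mk (uni p)))
  simp only [Prod.snd_mul] at h1
  obtain ⟨l, hl⟩ := comm_entries (uni p) (tor e he t) h1
  have hu : (uni p).val = !![1, 1; 0, 1] := rfl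
  rw [hu, tor_val] at hl
  have h10 := hl 1 0
  have h00 := hl 0 0
  simp [Matrix.mul_apply, Fin.sum_univ_two] at h10 h00
  rw [← h10] at h00
  simp at h00

open Classical in
lemma clique (c : ℕ) [NeZero c] (hodd : Odd p) :
    ∃ s : Finset {x : GG c p // x ∉ Subgroup.center (GG c p)},
      (commutingGraph (GG c p)).IsClique s ∧ s.card = c * p := by
  obtain ⟨e, he⟩ := exists_nonsquare (p := p) hodd
  have : NeZero p := ⟨hp.out.ne_zero⟩
  let f : ZMod c × ZMod p → {x : GG c p // x ∉ Subgroup.center (GG c p)} := fun q =>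
    ⟨(Multiplicative.ofAdd q.1, ProjGenLinGroup.mk (tor e he q.2)), tor_noncentral c e he q.2 _⟩
  have hf : Function.Injective f := by
    rintro ⟨a, t⟩ ⟨b, s⟩ h
    have h1 := congrArg Subtype.val h
    simp only [f, Prod.mk.injEq] at h1
    have h2 : a = b := Multiplicative.ofAdd.injective h1.1
    have h3 := tor_inj e he h1.2
    rw [h2, h3]
  refine ⟨Finset.univ.image f, ?_, ?_⟩
  · intro x hx y hy hne
    rw [Finset.coe_image, Set.mem_image] at hx hy
    obtain ⟨q, -, rfl⟩ := hx
    obtain ⟨r, -, rfl⟩ := hy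
    refine ⟨hne, ?_⟩
    simp only [f]
    apply Prod.ext
    · exact mul_comm (Multiplicative.ofAdd q.1) (Multiplicative.ofAdd r.1)
    · simp only [Prod.snd_mul]
      rw [← map_mul, ← map_mul, tor_comm]
  · rw [Finset.card_image_of_injective _ hf, Finset.card_univ, Fintype.card_prod, ZMod.card,
      ZMod.card]

instance (p : ℕ) [Fact p.Prime] : Finite (PG p) :=
  Finite.of_surjective _ ProjGenLinGroup.mk_surjective

theorem main (n : ℕ) (hn : 1 ≤ n) :
    ∃ (G : Type) (_ : Group G) (_ : Finite G), (∃ a b : G, a * b ≠ b * a) ∧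
      (commutingGraph G).cliqueNum = 2 * n + 1 ∧
      (commutingGraph G).chromaticNumber = ((2 * n + 1 : ℕ) : ℕ∞) := by
  classical
  set p := (2 * n + 1).minFac with hpdef
  have hprime : p.Prime := Nat.minFac_prime (by omega)
  have hdvd : p ∣ 2 * n + 1 := Nat.minFac_dvd _
  obtain ⟨c, hc⟩ := hdvd
  have hfact := Fact.mk hprime
  have hodd : Odd p := by
    have : Odd (p * c) := hc ▸ (⟨n, rfl⟩ : Odd (2 * n + 1))
    exact (Nat.odd_mul.1 this).1
  have hc0 : c ≠ 0 := by
    rintro rfl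
    omega
  have : NeZero c := ⟨hc0⟩
  have : NeZero p := ⟨hprime.ne_zero⟩
  have hfinc : Finite (Multiplicative (ZMod c)) := inferInstanceAs (Finite (ZMod c))
  have hfin : Finite (GG c p) := inferInstance
  obtain ⟨s, hs, hcard⟩ := clique (p := p) c hodd
  have hcp : c * p = 2 * n + 1 := by rw [hc, mul_comm]
  have hcol : (commutingGraph (GG c p)).Colorable (2 * n + 1) := by
    have := (coloring (p := p) c hodd).colorable
    rwa [Fintype.card_prod, ZMod.card, ZMod.card, hcp] at this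
  have hchi : (commutingGraph (GG c p)).chromaticNumber = ((2 * n + 1 : ℕ) : ℕ∞) := by
    apply le_antisymm
    · exact SimpleGraph.chromaticNumber_le_iff_colorable.2 hcol
    · have := SimpleGraph.IsClique.card_le_chromaticNumber hs
      rwa [hcard, hcp] at this
  refine ⟨GG c p, inferInstance, hfin, ?_, ?_, hchi⟩
  · obtain ⟨x, hx⟩ : s.Nonempty := by
      rw [← Finset.card_pos, hcard]
      exact Nat.mul_pos (Nat.pos_of_ne_zero hc0) hprime.pos
    have := x.2
    rw [Subgroup.mem_center_iff] at this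
    push Not at this
    obtain ⟨g, hg⟩ := this
    exact ⟨g, x.1, hg⟩
  · apply le_antisymm
    · have := (commutingGraph (GG c p)).cliqueNum_le_chromaticNumber
      rw [hchi] at this
      exact_mod_cast this
    · have := hs.card_le_cliqueNum
      rwa [hcard, hcp] at this

end Q20.OddComm
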